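import Mathlib

set_option autoImplicit false

/-!
# Assouad dimension: definitions and basic bounds
-/

namespace Pool.Agent.V1197.AD

open Set Metric Filter Topology Module MeasureTheory

/-- `A` can be covered by `n` open sets of diameter at most `r`, i.e. `N_r(A) ≤ n`. -/
def HasCover {X : Type*} [PseudoMetricSpace X] (A : Set X) (r : ℝ) (n : ℕ) : Prop :=
  ∃ U : Fin n → Set X, (∀ i, IsOpen (U i) ∧ ∀ x ∈ U i, ∀ y ∈ U i, dist x y ≤ r) ∧ A ⊆ ⋃ i, U i

/-- there is `C > 0` with `N_r(B(x,R) ∩ F) ≤ C (R/r)^s` for all `0 < r < R` and `x ∈ F` -/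
def AssouadBound {X : Type*} [PseudoMetricSpace X] (F : Set X) (s : ℝ) : Prop :=
  ∃ C : ℝ, 0 < C ∧ ∀ r R : ℝ, 0 < r → r < R → ∀ x ∈ F,
    ∃ n : ℕ, HasCover (ball x R ∩ F) r n ∧ (n : ℝ) ≤ C * (R / r) ^ s

/-- the Assouad dimension: infimum of all `s ≥ 0` satisfying `AssouadBound F s` -/
noncomputable def assouadDim {X : Type*} [PseudoMetricSpace X] (F : Set X) : ℝ :=
  sInf {s : ℝ | 0 ≤ s ∧ AssouadBound F s}

theorem card_le_of_separated' {V : Type*} [NormedAddCommGroup V] [NormedSpace ℝ V]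
    [FiniteDimensional ℝ V] (x : V) {R δ : ℝ} (hR : 0 < R) (hδ : 0 < δ) (s : Finset V)
    (hs : ∀ c ∈ s, dist c x < R) (h : ∀ c ∈ s, ∀ d ∈ s, c ≠ d → δ ≤ dist c d) :
    (s.card : ℝ) ≤ ((2 * R + δ) / δ) ^ finrank ℝ V := by
  borelize V
  let μ : Measure V := Measure.addHaar
  have hδ2 : (0 : ℝ) < δ / 2 := by positivity
  have ρpos : 0 < R + δ / 2 := by positivity
  set A := ⋃ c ∈ s, ball (c : V) (δ / 2) with hA
  have D : Set.Pairwise (s : Set V) (Function.onFun Disjoint fun c => ball (c : V) (δ / 2)) := by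
    rintro c hc d hd hcd
    apply ball_disjoint_ball
    have := h c hc d hd hcd
    linarith
  have A_subset : A ⊆ ball x (R + δ / 2) := by
    refine iUnion₂_subset fun c hc => ?_
    apply ball_subset_ball'
    have := hs c hc
    linarith
  have I : (s.card : ENNReal) * ENNReal.ofReal ((δ / 2) ^ finrank ℝ V) * μ (ball 0 1) ≤
      ENNReal.ofReal ((R + δ / 2) ^ finrank ℝ V) * μ (ball 0 1) :=
    calc
      (s.card : ENNReal) * ENNReal.ofReal ((δ / 2) ^ finrank ℝ V) * μ (ball 0 1) = μ A := by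
        rw [hA, measure_biUnion_finset D fun c _ => measurableSet_ball]
        simp only [μ.addHaar_ball_of_pos _ hδ2]
        simp only [Finset.sum_const, nsmul_eq_mul, mul_assoc]
      _ ≤ μ (ball x (R + δ / 2)) := measure_mono A_subset
      _ = ENNReal.ofReal ((R + δ / 2) ^ finrank ℝ V) * μ (ball 0 1) := by
        simp only [μ.addHaar_ball_of_pos _ ρpos]
  have J : (s.card : ENNReal) * ENNReal.ofReal ((δ / 2) ^ finrank ℝ V)
      ≤ ENNReal.ofReal ((R + δ / 2) ^ finrank ℝ V) :=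
    (ENNReal.mul_le_mul_iff_left (measure_ball_pos _ _ zero_lt_one).ne' measure_ball_lt_top.ne).1 I
  have K : (s.card : ℝ) * (δ / 2) ^ finrank ℝ V ≤ (R + δ / 2) ^ finrank ℝ V := by
    have := ENNReal.toReal_le_of_le_ofReal (pow_nonneg ρpos.le _) J
    rw [ENNReal.toReal_mul, ENNReal.toReal_ofReal (by positivity)] at this
    simpa using this
  have L : (2 * R + δ) / δ = (R + δ / 2) / (δ / 2) := by
    field_simp
  rw [L, div_pow, le_div_iff₀ (by positivity)]
  exact K

theorem exists_net {X : Type*} [MetricSpace X] (A : Set X) {δ : ℝ} (hδ : 0 < δ) (N : ℕ)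
    (hN : ∀ s : Finset X, (s : Set X) ⊆ A → (∀ c ∈ s, ∀ d ∈ s, c ≠ d → δ ≤ dist c d) →
      s.card ≤ N) :
    ∃ s : Finset X, (s : Set X) ⊆ A ∧ (∀ c ∈ s, ∀ d ∈ s, c ≠ d → δ ≤ dist c d) ∧
      ∀ y ∈ A, ∃ c ∈ s, dist y c < δ := by
  classical
  let P : ℕ → Prop := fun n => ∃ s : Finset X, (s : Set X) ⊆ A ∧
    (∀ c ∈ s, ∀ d ∈ s, c ≠ d → δ ≤ dist c d) ∧ s.card = n
  have hP0 : P 0 := ⟨∅, by simp, by simp, rfl⟩
  obtain ⟨s, hsA, hsep, hcard⟩ := Nat.findGreatest_spec (P := P) (Nat.zero_le N) hP0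
  refine ⟨s, hsA, hsep, fun y hy => ?_⟩
  by_contra hcon
  push Not at hcon
  have hys : y ∉ s := fun h => by
    have := hcon y h
    rw [dist_self] at this
    linarith
  have hP : P (Nat.findGreatest P N + 1) := by
    refine ⟨insert y s, ?_, ?_, ?_⟩
    · rw [Finset.coe_insert]
      exact insert_subset hy hsA
    · intro c hc d hd hcd
      rcases Finset.mem_insert.1 hc with rfl | hc'
      · rcases Finset.mem_insert.1 hd with rfl | hd'
        · exact absurd rfl hcd
        · exact hcon d hd'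
      · rcases Finset.mem_insert.1 hd with rfl | hd'
        · rw [dist_comm]; exact hcon c hc'
        · exact hsep c hc' d hd' hcd
    · rw [Finset.card_insert_of_notMem hys, hcard]
  obtain ⟨s', h1, h2, h3⟩ := hP
  have h4 := hN s' h1 h2
  rw [h3] at h4
  have h5 : P (Nat.findGreatest P N + 1) := ⟨s', h1, h2, h3⟩
  have h6 := Nat.le_findGreatest h4 h5
  omega

/-- subsets of a `k`-dimensional subspace have Assouad dimension at most `k` -/
theorem assouadBound_of_subspace {E : Type*} [NormedAddCommGroup E] [NormedSpace ℝ E]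
    (V : Submodule ℝ E) [FiniteDimensional ℝ V] {F : Set E} (hF : F ⊆ V) :
    AssouadBound F (finrank ℝ V : ℝ) := by
  classical
  refine ⟨5 ^ finrank ℝ V, by positivity, fun r R hr hrR x hx => ?_⟩
  have hR : 0 < R := hr.trans hrR
  have hδ : 0 < r / 2 := by positivity
  have key : ∀ s : Finset E, (s : Set E) ⊆ ball x R ∩ F →
      (∀ c ∈ s, ∀ d ∈ s, c ≠ d → r / 2 ≤ dist c d) →
      (s.card : ℝ) ≤ 5 ^ finrank ℝ V * (R / r) ^ (finrank ℝ V : ℝ) := by
    intro s hs hsep
    have h1 := card_le_of_separated' (V := V) ⟨x, hF hx⟩ hR hδ (s.subtype (· ∈ V)) (by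
      intro c hc
      rw [Finset.mem_subtype] at hc
      have := (hs hc).1
      rw [mem_ball] at this
      exact this) (by
      intro c hc d hd hcd
      rw [Finset.mem_subtype] at hc hd
      exact hsep c hc d hd fun h => hcd (Subtype.ext h))
    have h2 : (s.subtype (· ∈ V)).card = s.card := by
      rw [Finset.card_subtype, Finset.filter_true_of_mem]
      intro c hc
      exact hF (hs hc).2
    rw [h2] at h1
    refine h1.trans ?_
    rw [Real.rpow_natCast, ← mul_pow]
    apply pow_le_pow_left₀ (by positivity)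
    rw [div_le_iff₀ hδ]
    have : 5 * (R / r) * (r / 2) = 5 / 2 * R := by field_simp
    rw [this]
    linarith
  obtain ⟨s, hsA, hsep, hnet⟩ := exists_net (ball x R ∩ F) hδ
    ⌊5 ^ finrank ℝ V * (R / r) ^ (finrank ℝ V : ℝ)⌋₊ (fun s h1 h2 => Nat.le_floor (key s h1 h2))
  refine ⟨s.card, ⟨fun i => ball (s.equivFin.symm i : E) (r / 2), fun i => ⟨isOpen_ball, ?_⟩, ?_⟩,
    key s hsA hsep⟩
  · intro y hy z hz
    rw [mem_ball] at hy hz
    have := dist_triangle_right y z (s.equivFin.symm i : E)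
    linarith
  · intro y hy
    obtain ⟨c, hc, hyc⟩ := hnet y hy
    refine mem_iUnion.2 ⟨s.equivFin ⟨c, hc⟩, ?_⟩
    rw [Equiv.symm_apply_apply]
    exact hyc

/-- a lower bound for the Assouad dimension: arbitrarily large approximate grids -/
theorem le_of_grid {X : Type*} [PseudoMetricSpace X] {F : Set X} {k : ℕ} {s : ℝ}
    {D : ℝ} (hD : 0 < D)
    (h : ∀ M : ℕ, ∃ lam : ℝ, 0 < lam ∧ ∃ y : (Fin k → Fin (M + 1)) → X, (∀ g, y g ∈ F) ∧
      (∀ g g', g ≠ g' → lam / 2 ≤ dist (y g) (y g')) ∧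
      ∀ g g', dist (y g) (y g') ≤ D * (M + 1) * lam)
    (hb : AssouadBound F s) : (k : ℝ) ≤ s := by
  classical
  obtain ⟨C, hC, hb⟩ := hb
  by_contra hcon
  push Not at hcon
  have hE : 0 < 6 * (D + 1) := by positivity
  have key : ∀ M : ℕ, ((M : ℝ) + 1) ^ ((k : ℝ) - s) ≤ C * (6 * (D + 1)) ^ s := by
    intro M
    obtain ⟨lam, hlam, y, hyF, hysep, hyD⟩ := h M
    have hM : (0 : ℝ) < M + 1 := by positivity
    have hrR : lam / 3 < 2 * (D + 1) * (M + 1) * lam := by
      have h1 : (1 : ℝ) ≤ (D + 1) * (M + 1) := by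
        have hM0 : (0 : ℝ) ≤ M := Nat.cast_nonneg M
        nlinarith
      nlinarith
    obtain ⟨n, ⟨U, hU, hcov⟩, hn⟩ := hb (lam / 3) (2 * (D + 1) * (M + 1) * lam) (by positivity) hrR
      (y fun _ => 0) (hyF _)
    have hmem : ∀ g, ∃ i, y g ∈ U i := by
      intro g
      have : y g ∈ ball (y fun _ => 0) (2 * (D + 1) * (M + 1) * lam) ∩ F := by
        refine ⟨?_, hyF g⟩
        rw [mem_ball]
        refine (hyD g _).trans_lt ?_
        have : 0 < (M + 1 : ℝ) * lam := by positivity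
        nlinarith
      simpa using hcov this
    choose i hi using hmem
    have hinj : Function.Injective i := by
      intro g g' hgg
      by_contra hne
      have h1 := hysep g g' hne
      have h2 := (hU (i g)).2 (y g) (hi g) (y g') (hgg ▸ hi g')
      linarith
    have hcard := Fintype.card_le_of_injective i hinj
    rw [Fintype.card_fun, Fintype.card_fin, Fintype.card_fin, Fintype.card_fin] at hcard
    have h1 : ((M : ℝ) + 1) ^ k ≤ n := by exact_mod_cast hcard
    have h2 : 2 * (D + 1) * (M + 1) * lam / (lam / 3) = 6 * (D + 1) * (M + 1) := by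
      field_simp
      ring
    rw [h2, Real.mul_rpow hE.le hM.le] at hn
    rw [Real.rpow_sub hM, Real.rpow_natCast, div_le_iff₀ (by positivity)]
    linarith
  have htend : Tendsto (fun M : ℕ => ((M : ℝ) + 1) ^ ((k : ℝ) - s)) atTop atTop :=
    (tendsto_rpow_atTop (by linarith)).comp
      (tendsto_atTop_add_const_right _ _ tendsto_natCast_atTop_atTop)
  obtain ⟨M, hM⟩ := (htend.eventually_gt_atTop (C * (6 * (D + 1)) ^ s)).exists
  exact absurd (key M) (not_le.2 hM)

/-- the Assouad dimension from the two bounds -/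
theorem assouadDim_eq_of {X : Type*} [PseudoMetricSpace X] {F : Set X} {t : ℝ} (ht : 0 ≤ t)
    (h1 : AssouadBound F t) (h2 : ∀ s, AssouadBound F s → t ≤ s) : assouadDim F = t := by
  apply le_antisymm
  · exact csInf_le ⟨0, fun s hs => hs.1⟩ ⟨ht, h1⟩
  · exact le_csInf ⟨t, ht, h1⟩ fun s hs => h2 s hs.2

end Pool.Agent.V1197.AD
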