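import Pool.Agent.V1197.AD.Assouad

set_option autoImplicit false

/-!
# Rotations: closeness, recurrence, small rotations
-/

namespace Pool.Agent.V1197.AD

open Set Metric Filter Topology Module

variable {E : Type*} [NormedAddCommGroup E] [InnerProductSpace ℝ E]

/-- determinant of a linear isometry -/
noncomputable def dt (R : E ≃ₗᵢ[ℝ] E) : ℝ := LinearMap.det (R.toLinearEquiv : E →ₗ[ℝ] E)

/-- an isometry as a continuous linear map -/
noncomputable def cl (R : E ≃ₗᵢ[ℝ] E) : E →L[ℝ] E := R.toLinearIsometry.toContinuousLinearMap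

@[simp] theorem cl_apply (R : E ≃ₗᵢ[ℝ] E) (x : E) : cl R x = R x := rfl

theorem cl_mul (R Q : E ≃ₗᵢ[ℝ] E) : cl (R * Q) = cl R * cl Q := rfl

theorem cl_one : cl (1 : E ≃ₗᵢ[ℝ] E) = 1 := rfl

theorem norm_cl_le (R : E ≃ₗᵢ[ℝ] E) : ‖cl R‖ ≤ 1 := R.toLinearIsometry.norm_toContinuousLinearMap_le

theorem cl_pow (R : E ≃ₗᵢ[ℝ] E) (n : ℕ) : cl (R ^ n) = cl R ^ n := by
  induction n with
  | zero => rfl
  | succ n ih => rw [pow_succ, pow_succ, cl_mul, ih]

theorem dt_mul (R Q : E ≃ₗᵢ[ℝ] E) : dt (R * Q) = dt R * dt Q := by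
  unfold dt
  rw [← LinearMap.det_comp]
  rfl

theorem dt_one : dt (1 : E ≃ₗᵢ[ℝ] E) = 1 := by
  unfold dt
  exact LinearMap.det_id

theorem dt_inv (R : E ≃ₗᵢ[ℝ] E) (h : dt R = 1) : dt R⁻¹ = 1 := by
  have h1 := dt_mul R⁻¹ R
  rw [inv_mul_cancel, dt_one, h, mul_one] at h1
  exact h1.symm

theorem norm_mul_cl_le (A : E →L[ℝ] E) (R : E ≃ₗᵢ[ℝ] E) : ‖A * cl R‖ ≤ ‖A‖ :=
  (norm_mul_le _ _).trans (mul_le_of_le_one_right (norm_nonneg _) (norm_cl_le R))

theorem norm_cl_mul_le (A : E →L[ℝ] E) (R : E ≃ₗᵢ[ℝ] E) : ‖cl R * A‖ ≤ ‖A‖ :=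
  (norm_mul_le _ _).trans (mul_le_of_le_one_left (norm_nonneg _) (norm_cl_le R))

theorem norm_cl_mul (A : E →L[ℝ] E) (R : E ≃ₗᵢ[ℝ] E) : ‖cl R * A‖ = ‖A‖ := by
  apply le_antisymm (norm_cl_mul_le A R)
  have h := norm_cl_mul_le (cl R * A) R⁻¹
  rwa [← mul_assoc, ← cl_mul, inv_mul_cancel, cl_one, one_mul] at h

theorem cl_mul_sub (R₁ R₂ Q₁ Q₂ : E ≃ₗᵢ[ℝ] E) :
    ‖cl (R₁ * Q₁) - cl (R₂ * Q₂)‖ ≤ ‖cl R₁ - cl R₂‖ + ‖cl Q₁ - cl Q₂‖ := by
  have h : cl (R₁ * Q₁) - cl (R₂ * Q₂) = (cl R₁ - cl R₂) * cl Q₁ + cl R₂ * (cl Q₁ - cl Q₂) := by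
    rw [cl_mul, cl_mul, sub_mul, mul_sub]
    abel
  rw [h]
  exact (norm_add_le _ _).trans (add_le_add (norm_mul_cl_le _ _) (norm_cl_mul_le _ _))

theorem cl_inv_sub (R Q : E ≃ₗᵢ[ℝ] E) : ‖cl R⁻¹ - cl Q⁻¹‖ ≤ ‖cl R - cl Q‖ := by
  have h : cl R⁻¹ - cl Q⁻¹ = cl R⁻¹ * ((cl Q - cl R) * cl Q⁻¹) := by
    rw [sub_mul, mul_sub, ← cl_mul, ← cl_mul, ← cl_mul, ← cl_mul, mul_inv_cancel, mul_one,
      ← mul_assoc, inv_mul_cancel, one_mul]
  rw [h, norm_sub_rev (cl R)]
  exact (norm_cl_mul_le _ _).trans (norm_mul_cl_le _ _)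

/-- recurrence -/
theorem exists_pow_near [FiniteDimensional ℝ E] (O : E ≃ₗᵢ[ℝ] E) {ε : ℝ} (hε : 0 < ε) :
    ∃ᶠ n in atTop, ‖cl (O ^ n) - 1‖ < ε := by
  have : ProperSpace (E →L[ℝ] E) := FiniteDimensional.proper_real _
  rw [frequently_atTop]
  intro N
  obtain ⟨A, -, φ, hφ, hlim⟩ := tendsto_subseq_of_bounded (s := closedBall (0 : E →L[ℝ] E) 1)
    isBounded_closedBall (x := fun n => cl (O ^ n)) (fun n => by
      rw [mem_closedBall, dist_zero_right]
      exact norm_cl_le _)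
  have hc := hlim.cauchySeq
  rw [Metric.cauchySeq_iff] at hc
  obtain ⟨a, ha⟩ := hc ε hε
  have h1 := ha (a + N) (by omega) a le_rfl
  have h2 : N + φ a ≤ φ (N + a) := hφ.add_le_nat N a
  rw [add_comm N a] at h2
  refine ⟨φ (a + N) - φ a, by omega, ?_⟩
  have h3 : cl (O ^ φ (a + N)) - cl (O ^ φ a) = cl (O ^ φ a) * (cl (O ^ (φ (a + N) - φ a)) - 1) := by
    rw [mul_sub, ← cl_mul, ← pow_add, mul_one]
    congr 3
    omega
  rw [dist_eq_norm] at h1
  simp only [Function.comp] at h1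
  rwa [h3, norm_cl_mul] at h1

/-- rotation taking `a` to `b` -/
noncomputable def rt (a b : E) : E ≃ₗᵢ[ℝ] E :=
  (Submodule.span ℝ {a + b}).reflection * (Submodule.span ℝ {a}).reflection

theorem rt_apply {a b : E} (h : ‖a‖ = ‖b‖) : rt a b a = b := by
  unfold rt
  rw [LinearIsometryEquiv.coe_mul, Function.comp_apply,
    Submodule.reflection_mem_subspace_eq_self (Submodule.mem_span_singleton_self a),
    Submodule.reflection_singleton_apply]
  by_cases hm : a + b = 0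
  · rw [hm]
    simp only [smul_zero, zero_sub]
    rw [neg_eq_iff_eq_neg]
    exact (eq_neg_of_add_eq_zero_left hm)
  · have h1 : ‖a + b‖ ^ 2 = 2 * inner ℝ (a + b) a := by
      rw [← real_inner_self_eq_norm_sq, inner_add_left, inner_add_left, inner_add_right,
        inner_add_right, real_inner_self_eq_norm_sq, real_inner_self_eq_norm_sq,
        real_inner_comm a b, h]
      ring
    have h2 : ‖a + b‖ ^ 2 ≠ 0 := by
      have := norm_ne_zero_iff.2 hm
      positivity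
    have h3 : (inner ℝ (a + b) a : ℝ) / ((‖a + b‖ : ℝ) : ℝ) ^ 2 = 1 / 2 := by
      rw [h1] at h2 ⊢
      have : (inner ℝ (a + b) a : ℝ) ≠ 0 := by
        intro h0; rw [h0] at h2; simp at h2
      field_simp
    simp only [RCLike.ofReal_real_eq_id, id_eq]
    rw [h3, two_smul, ← add_smul]
    norm_num

theorem rt_dt [FiniteDimensional ℝ E] {a b : E} (ha : a ≠ 0) (hab : a + b ≠ 0) :
    dt (rt a b) = 1 := by
  unfold rt
  rw [dt_mul]
  unfold dt
  have h1 : ∀ v : E, v ≠ 0 → LinearMap.det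
      ((Submodule.span ℝ {v}).reflection.toLinearEquiv : E →ₗ[ℝ] E)
      = (-1) ^ (finrank ℝ E - 1) := by
    intro v hv
    have h2 := (Submodule.span ℝ {v}).det_reflection
    have h3 := (Submodule.span ℝ {v}).finrank_add_finrank_orthogonal
    rw [finrank_span_singleton hv] at h3
    have h4 : finrank ℝ (Submodule.span ℝ {v})ᗮ = finrank ℝ E - 1 := by omega
    rw [h4] at h2
    exact h2
  rw [h1 _ hab, h1 _ ha, ← mul_pow]
  norm_num

theorem cl_reflection (v : E) (x : E) : cl (Submodule.span ℝ {v}).reflection x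
    = ((2 : ℝ) * (‖v‖ ^ 2)⁻¹) • ((inner ℝ v x : ℝ) • v) - x := by
  rw [cl_apply, Submodule.reflection_singleton_apply]
  simp only [RCLike.ofReal_real_eq_id, id_eq]
  rw [← smul_smul, two_smul ℝ, two_smul ℕ, smul_smul, div_eq_inv_mul]

theorem continuousAt_cl_reflection {v : E} (hv : v ≠ 0) :
    ContinuousAt (fun v : E => cl (Submodule.span ℝ {v}).reflection) v := by
  have h1 : (fun v : E => cl (Submodule.span ℝ {v}).reflection)
      = fun v => ((2 : ℝ) * (‖v‖ ^ 2)⁻¹) • ((innerSL ℝ v).smulRight v) - 1 := by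
    ext v x
    rw [cl_reflection]
    rfl
  rw [h1]
  have h2 : ‖v‖ ^ 2 ≠ 0 := by
    have := norm_ne_zero_iff.2 hv
    positivity
  have h3 : ContinuousAt (fun v : E => (2 : ℝ) * (‖v‖ ^ 2)⁻¹) v :=
    continuousAt_const.mul ((continuous_norm.pow 2).continuousAt.inv₀ h2)
  have h4 : Continuous (fun v : E => (innerSL ℝ v).smulRight v) := by
    have : (fun v : E => (innerSL ℝ v).smulRight v)
        = fun v => ContinuousLinearMap.smulRightL ℝ E E (innerSL ℝ v) v := rfl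
    rw [this]
    fun_prop
  exact (h3.smul h4.continuousAt).sub continuousAt_const

/-- rotations between nearby vectors are near the identity -/
theorem tendsto_rt {α : Type*} {l : Filter α} {a b : α → E} {v : E} (hv : v ≠ 0)
    (ha : Tendsto a l (𝓝 v)) (hb : Tendsto b l (𝓝 v)) :
    Tendsto (fun n => cl (rt (a n) (b n))) l (𝓝 1) := by
  have h2v : v + v ≠ 0 := by
    rw [← two_smul ℝ]
    exact smul_ne_zero two_ne_zero hv
  have h1 := (continuousAt_cl_reflection h2v).tendsto.comp (ha.add hb)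
  have h2 := (continuousAt_cl_reflection hv).tendsto.comp ha
  have h3 := h1.mul h2
  have h4 : cl (Submodule.span ℝ {v + v}).reflection * cl (Submodule.span ℝ {v}).reflection = 1 := by
    have h5 : Submodule.span ℝ {v + v} = Submodule.span ℝ {v} := by
      rw [← two_smul ℝ v]
      exact Submodule.span_singleton_smul_eq (isUnit_iff_ne_zero.2 two_ne_zero) v
    have h6 : (Submodule.span ℝ {v + v}).reflection = (Submodule.span ℝ {v}).reflection := by
      simp only [h5]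
    rw [h6, ← cl_mul, Submodule.reflection_mul_reflection, cl_one]
  rw [h4] at h3
  exact h3

end Pool.Agent.V1197.AD
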