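import Pool.Agent.V1197.AD.Rot

set_option autoImplicit false

/-!
# Approximate sumsets inside projections
-/

namespace Pool.Agent.V1197.AD

open Set Metric Filter Topology Module

variable {E : Type*} [NormedAddCommGroup E] [InnerProductSpace ℝ E]

/-- `S` is a similarity with ratio `c` and isometry part `O` which maps `F` into itself -/
def Good (F : Set E) (c : ℝ) (O : E ≃ₗᵢ[ℝ] E) (S : E → E) : Prop :=
  0 < c ∧ MapsTo S F F ∧ ∀ x y, S x - S y = c • O (x - y)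

theorem Good.comp {F : Set E} {c₁ c₂ : ℝ} {O₁ O₂ : E ≃ₗᵢ[ℝ] E} {S₁ S₂ : E → E}
    (h₁ : Good F c₁ O₁ S₁) (h₂ : Good F c₂ O₂ S₂) : Good F (c₁ * c₂) (O₁ * O₂) (S₁ ∘ S₂) := by
  refine ⟨mul_pos h₁.1 h₂.1, h₁.2.1.comp h₂.2.1, fun x y => ?_⟩
  simp only [Function.comp]
  rw [h₁.2.2, h₂.2.2, LinearIsometryEquiv.map_smul, smul_smul]
  rfl

theorem Good.one (F : Set E) : Good F 1 1 id :=
  ⟨one_pos, mapsTo_id F, fun x y => by simp⟩

theorem Good.iterate {F : Set E} {c : ℝ} {O : E ≃ₗᵢ[ℝ] E} {S : E → E} (h : Good F c O S) (n : ℕ) :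
    Good F (c ^ n) (O ^ n) (S^[n]) := by
  induction n with
  | zero => simpa using Good.one F
  | succ n ih =>
    rw [pow_succ, pow_succ, Function.iterate_succ]
    exact ih.comp h

theorem Good.norm_sub {F : Set E} {c : ℝ} {O : E ≃ₗᵢ[ℝ] E} {S : E → E} (h : Good F c O S)
    (x y : E) : ‖S x - S y‖ = c * ‖x - y‖ := by
  rw [h.2.2, norm_smul, LinearIsometryEquiv.norm_map, Real.norm_eq_abs, abs_of_pos h.1]

/-- `λ T` is approximated in all projections near a given one -/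
def Apx (F : Set E) (V : Submodule ℝ E) [V.HasOrthogonalProjection] (T : Set E) : Prop :=
  ∀ η : ℝ, 0 < η → ∃ R : E ≃ₗᵢ[ℝ] E, dt R = 1 ∧ ∃ ε : ℝ, 0 < ε ∧ ∃ lam : ℝ, 0 < lam ∧
    ∃ z₀ ∈ F, ∀ v ∈ T, ∃ z ∈ F, ∀ R' : E ≃ₗᵢ[ℝ] E, ‖cl R' - cl R‖ ≤ ε →
      ‖V.starProjection (R' (z - z₀)) - lam • v‖ ≤ η * lam

theorem Apx.zero {F : Set E} {V : Submodule ℝ E} [V.HasOrthogonalProjection] (hF : F.Nonempty) :
    Apx F V {0} := by
  obtain ⟨z₀, hz₀⟩ := hF
  intro η hη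
  refine ⟨1, dt_one, 1, one_pos, 1, one_pos, z₀, hz₀, fun v hv => ⟨z₀, hz₀, fun R' _ => ?_⟩⟩
  rw [mem_singleton_iff] at hv
  rw [hv, sub_self, LinearIsometryEquiv.map_zero, map_zero, smul_zero, sub_zero, norm_zero]
  positivity

theorem Apx.mono {F : Set E} {V : Submodule ℝ E} [V.HasOrthogonalProjection] {T T' : Set E}
    (h : Apx F V T) (hT : T' ⊆ T) : Apx F V T' := by
  intro η hη
  obtain ⟨R, hR, ε, hε, lam, hlam, z₀, hz₀, H⟩ := h η hη
  exact ⟨R, hR, ε, hε, lam, hlam, z₀, hz₀, fun v hv => H v (hT hv)⟩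

theorem norm_starProjection_le (V : Submodule ℝ E) [V.HasOrthogonalProjection] (x : E) :
    ‖V.starProjection x‖ ≤ ‖x‖ :=
  ((V.starProjection).le_opNorm x).trans
    (mul_le_of_le_one_left (norm_nonneg _) (V.starProjection_norm_le))

/-- the step -/
theorem Apx.step [FiniteDimensional ℝ E] {F : Set E} {V : Submodule ℝ E} {T : Set E}
    (h : Apx F V T)
    -- density of the rotations
    (hdens : ∀ R : E ≃ₗᵢ[ℝ] E, dt R = 1 → ∀ ε : ℝ, 0 < ε →
      ∃ c O S, Good F c O S ∧ ‖cl O - cl R‖ < ε)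
    -- a contraction with fixed point `x`
    {c : ℝ} {O : E ≃ₗᵢ[ℝ] E} {S : E → E} (hS : Good F c O S) (hc : c < 1) {x : E} (hx : S x = x)
    -- a map not fixing `x`
    {c₁ : ℝ} {O₁ : E ≃ₗᵢ[ℝ] E} {S₁ : E → E} (hS₁ : Good F c₁ O₁ S₁) (hO₁ : dt O₁ = 1)
    (hx₁ : S₁ x ≠ x)
    -- a unit vector in the kernel of the projection
    {u : E} (hu : ‖u‖ = 1) (huV : u ∈ Vᗮ) {f : E} (hf : f ∈ V) :
    Apx F V (T ∪ (fun v => v + f) '' T) := by
  intro η hη
  obtain ⟨R, hR, ε, hε, lam, hlam, z₀, hz₀, H⟩ := h (η / 2) (by positivity)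
  set t₀ : E := S₁ x - x with ht₀
  have ht₀0 : t₀ ≠ 0 := sub_ne_zero.2 hx₁
  have ht₀n : 0 < ‖t₀‖ := norm_pos_iff.2 ht₀0
  -- choose the sign of `u`
  obtain ⟨u, hu, huV, hsum⟩ : ∃ u : E, ‖u‖ = 1 ∧ u ∈ Vᗮ ∧ t₀ + ‖t₀‖ • u ≠ 0 := by
    by_cases h0 : t₀ + ‖t₀‖ • u = 0
    · refine ⟨-u, by rw [norm_neg, hu], neg_mem huV, fun h1 => ?_⟩
      rw [smul_neg] at h1
      have h2 : (2 : ℝ) • t₀ = 0 := by
        rw [two_smul]
        calc t₀ + t₀ = (t₀ + ‖t₀‖ • u) + (t₀ + -(‖t₀‖ • u)) := by abel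
          _ = 0 := by rw [h0, h1, add_zero]
      exact ht₀0 ((smul_eq_zero.1 h2).resolve_left two_ne_zero)
    · exact ⟨u, hu, huV, h0⟩
  set R₀ : E ≃ₗᵢ[ℝ] E := rt t₀ (‖t₀‖ • u) with hR₀
  have hR₀t : R₀ t₀ = ‖t₀‖ • u := rt_apply (by rw [norm_smul, hu, mul_one, norm_norm])
  have hR₀d : dt R₀ = 1 := rt_dt ht₀0 hsum
  -- the tail word
  obtain ⟨c', O', S', hS', hO'⟩ := hdens ((R₀ * O₁)⁻¹ * R)
    (by rw [dt_mul, dt_inv _ (by rw [dt_mul, hR₀d, hO₁, mul_one]), hR, mul_one]) (ε / 4)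
    (by positivity)
  -- sequences
  set y : E := S' z₀ with hy
  have hlim : ∀ w : E, Tendsto (fun n => S^[n] w) atTop (𝓝 x) := by
    intro w
    rw [tendsto_iff_norm_sub_tendsto_zero]
    have h1 : ∀ n, ‖S^[n] w - x‖ = c ^ n * ‖w - x‖ := by
      intro n
      have h2 : S^[n] x = x := Function.iterate_fixed hx n
      rw [← (hS.iterate n).norm_sub w x, h2]
    simp_rw [h1]
    have h2 := (tendsto_pow_atTop_nhds_zero_of_lt_one hS.1.le hc).mul_const ‖w - x‖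
    rwa [zero_mul] at h2
  have hS₁c : Continuous S₁ := by
    refine (LipschitzWith.of_dist_le_mul (K := ⟨c₁, hS₁.1.le⟩) fun a b => ?_).continuous
    rw [dist_eq_norm, dist_eq_norm, hS₁.norm_sub]
    rfl
  set t : ℕ → E := fun n => S₁ (S^[n] y) - S^[n] (S₁ y) with ht
  have htlim : Tendsto t atTop (𝓝 t₀) := ((hS₁c.tendsto x).comp (hlim y)).sub (hlim (S₁ y))
  set L : ℕ → ℝ := fun n => c ^ n * c₁ * c' * lam with hL
  have hLpos : ∀ n, 0 < L n := fun n => by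
    have := pow_pos hS.1 n
    have := hS₁.1
    have := hS'.1
    positivity
  have hLlim : Tendsto L atTop (𝓝 0) := by
    have h2 := (((tendsto_pow_atTop_nhds_zero_of_lt_one hS.1.le hc).mul_const c₁).mul_const
      c').mul_const lam
    simpa using h2
  set b : ℕ → E := fun n => L n • f + Real.sqrt (‖t n‖ ^ 2 - (L n * ‖f‖) ^ 2) • u with hb
  have hblim : Tendsto b atTop (𝓝 (‖t₀‖ • u)) := by
    have h1 : Tendsto (fun n => Real.sqrt (‖t n‖ ^ 2 - (L n * ‖f‖) ^ 2)) atTop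
        (𝓝 (Real.sqrt (‖t₀‖ ^ 2 - (0 * ‖f‖) ^ 2))) :=
      ((htlim.norm.pow 2).sub ((hLlim.mul_const ‖f‖).pow 2)).sqrt
    rw [zero_mul, zero_pow two_ne_zero, sub_zero, Real.sqrt_sq (norm_nonneg _)] at h1
    have h2 := (hLlim.smul_const f).add (h1.smul_const u)
    rwa [zero_smul, zero_add] at h2
  have halim : Tendsto (fun n => R₀ (t n)) atTop (𝓝 (‖t₀‖ • u)) := by
    rw [← hR₀t]
    exact (R₀.continuous.tendsto _).comp htlim
  have hu0 : ‖t₀‖ • u ≠ 0 := by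
    rw [← norm_pos_iff, norm_smul, hu, mul_one, norm_norm]
    exact ht₀n
  have hrt := tendsto_rt hu0 halim hblim
  -- eventual conditions
  have e1 : ∀ᶠ n in atTop, ‖cl (rt (R₀ (t n)) (b n)) - 1‖ < ε / 4 := by
    have := (tendsto_iff_norm_sub_tendsto_zero.1 hrt).eventually (gt_mem_nhds
      (show (0 : ℝ) < ε / 4 by positivity))
    exact this
  have e2 : ∀ᶠ n in atTop, 0 < ‖t n‖ ^ 2 - (L n * ‖f‖) ^ 2 := by
    have h1 : Tendsto (fun n => ‖t n‖ ^ 2 - (L n * ‖f‖) ^ 2) atTop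
        (𝓝 (‖t₀‖ ^ 2 - (0 * ‖f‖) ^ 2)) :=
      (htlim.norm.pow 2).sub ((hLlim.mul_const ‖f‖).pow 2)
    refine h1.eventually (lt_mem_nhds ?_)
    rw [zero_mul, zero_pow two_ne_zero, sub_zero]
    positivity
  have e3 : ∀ᶠ n in atTop, R₀ (t n) + b n ≠ 0 := by
    have h1 := halim.add hblim
    refine h1.eventually_ne ?_
    rw [← two_smul ℝ]
    exact smul_ne_zero two_ne_zero hu0
  obtain ⟨n, hn0, hn1, hn2, hn3⟩ := ((exists_pow_near O (show (0 : ℝ) < ε / 4 by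
    positivity)).and_eventually (e1.and (e2.and e3))).exists
  have htn0 : t n ≠ 0 := by
    intro h0
    rw [h0, norm_zero] at hn2
    nlinarith [sq_nonneg (L n * ‖f‖)]
  have htnn : 0 < ‖t n‖ := norm_pos_iff.2 htn0
  have huf : inner ℝ f u = (0 : ℝ) := Submodule.inner_right_of_mem_orthogonal hf huV
  have hnb : ‖R₀ (t n)‖ = ‖b n‖ := by
    rw [LinearIsometryEquiv.norm_map]
    have h1 : ‖b n‖ ^ 2 = ‖t n‖ ^ 2 := by
      rw [hb]
      simp only
      rw [← real_inner_self_eq_norm_sq, inner_add_left, inner_add_right, inner_add_right,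
        inner_smul_left, inner_smul_right, inner_smul_left, inner_smul_right, inner_smul_left,
        inner_smul_right, inner_smul_left, inner_smul_right, real_inner_comm f u, huf,
        real_inner_self_eq_norm_sq, real_inner_self_eq_norm_sq, hu]
      simp only [RCLike.conj_to_real]
      have h2 := Real.mul_self_sqrt hn2.le
      nlinarith [h2]
    exact ((sq_eq_sq₀ (norm_nonneg _) (norm_nonneg _)).1 h1).symm
  set Rn : E ≃ₗᵢ[ℝ] E := rt (R₀ (t n)) (b n) * R₀ with hRn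
  have hRnt : Rn (t n) = b n := by
    rw [hRn, LinearIsometryEquiv.coe_mul, Function.comp_apply]
    exact rt_apply hnb
  have hRnd : dt Rn = 1 := by
    rw [hRn, dt_mul, hR₀d, mul_one]
    refine rt_dt ?_ hn3
    intro h0
    rw [LinearIsometryEquiv.map_eq_zero_iff] at h0
    exact htn0 h0
  have hRnc : ‖cl Rn - cl R₀‖ < ε / 4 := by
    have h1 : cl Rn - cl R₀ = (cl (rt (R₀ (t n)) (b n)) - 1) * cl R₀ := by
      rw [hRn, cl_mul, sub_mul, one_mul]
    rw [h1]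
    exact (norm_mul_cl_le _ _).trans_lt hn1
  have hVb : V.starProjection (b n) = L n • f := by
    rw [hb]
    simp only
    rw [map_add, map_smul, map_smul, Submodule.starProjection_eq_self_iff.2 hf,
      (V.starProjection_apply_eq_zero_iff).2 huV, smul_zero, add_zero]
  -- the two words
  have hP₀ : Good F (c ^ n * c₁) (O ^ n * O₁) (S^[n] ∘ S₁) := (hS.iterate n).comp hS₁
  have hP₁ : Good F (c₁ * c ^ n) (O₁ * O ^ n) (S₁ ∘ S^[n]) := hS₁.comp (hS.iterate n)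
  refine ⟨Rn, hRnd, min (ε / 4) (η / 2 * L n / ‖t n‖), ?_, L n, hLpos n, S^[n] (S₁ (S' z₀)), ?_, ?_⟩
  · have := hLpos n
    positivity
  · exact hP₀.2.1 (hS'.2.1 hz₀)
  -- closeness of the composed rotations
  have hclose : ∀ R' Q : E ≃ₗᵢ[ℝ] E, ‖cl R' - cl Rn‖ ≤ ε / 4 → ‖cl Q - cl O₁‖ < ε / 4 →
      ‖cl (R' * Q * O') - cl R‖ ≤ ε := by
    intro R' Q hR' hQ
    have h1 := cl_mul_sub (R' * Q) (R₀ * O₁) O' ((R₀ * O₁)⁻¹ * R)
    rw [mul_inv_cancel_left] at h1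
    have h2 := cl_mul_sub R' R₀ Q O₁
    have h3 : ‖cl R' - cl R₀‖ ≤ ‖cl R' - cl Rn‖ + ‖cl Rn - cl R₀‖ := norm_sub_le_norm_sub_add_norm_sub _ _ _
    linarith
  have hQ₀ : ‖cl (O ^ n * O₁) - cl O₁‖ < ε / 4 := by
    have h1 : cl (O ^ n * O₁) - cl O₁ = (cl (O ^ n) - 1) * cl O₁ := by
      rw [cl_mul, sub_mul, one_mul]
    rw [h1]
    exact (norm_mul_cl_le _ _).trans_lt hn0
  have hQ₁ : ‖cl (O₁ * O ^ n) - cl O₁‖ < ε / 4 := by
    have h1 : cl (O₁ * O ^ n) - cl O₁ = cl O₁ * (cl (O ^ n) - 1) := by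
      rw [cl_mul, mul_sub, mul_one]
    rw [h1]
    exact (norm_cl_mul_le _ _).trans_lt hn0
  have hmain : ∀ (v z : E) (R' Q : E ≃ₗᵢ[ℝ] E) (W : E → E), (∀ R'' : E ≃ₗᵢ[ℝ] E,
      ‖cl R'' - cl R‖ ≤ ε → ‖V.starProjection (R'' (z - z₀)) - lam • v‖ ≤ η / 2 * lam) →
      ‖cl R' - cl Rn‖ ≤ ε / 4 → ‖cl Q - cl O₁‖ < ε / 4 → Good F (c ^ n * c₁) Q W →
      ‖V.starProjection (R' (W (S' z) - W (S' z₀))) - L n • v‖ ≤ η / 2 * L n := by
    intro v z R' Q W hz hR' hQ hW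
    have h1 := hz _ (hclose R' Q hR' hQ)
    have h2 := (hW.comp hS').2.2 z z₀
    simp only [Function.comp] at h2
    have h3 : R' (W (S' z) - W (S' z₀)) = (c ^ n * c₁ * c') • (R' * Q * O') (z - z₀) := by
      rw [h2, LinearIsometryEquiv.map_smul]
      rfl
    have h4 : V.starProjection (R' (W (S' z) - W (S' z₀))) - L n • v
        = (c ^ n * c₁ * c') • (V.starProjection ((R' * Q * O') (z - z₀)) - lam • v) := by
      rw [h3, map_smul, smul_sub, smul_smul, hL]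
    have h5 : 0 < c ^ n * c₁ * c' := by
      have := pow_pos hS.1 n
      have := hS₁.1
      have := hS'.1
      positivity
    rw [h4, norm_smul, Real.norm_eq_abs, abs_of_pos h5]
    calc (c ^ n * c₁ * c') * ‖V.starProjection ((R' * Q * O') (z - z₀)) - lam • v‖
        ≤ (c ^ n * c₁ * c') * (η / 2 * lam) := by gcongr
      _ = η / 2 * L n := by rw [hL]; ring
  rintro v (hv | ⟨v, hv, rfl⟩)
  · obtain ⟨z, hz, hz'⟩ := H v hv
    refine ⟨S^[n] (S₁ (S' z)), hP₀.2.1 (hS'.2.1 hz), fun R' hR' => ?_⟩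
    have h1 := hmain v z R' _ _ hz' (hR'.trans (min_le_left _ _)) hQ₀ hP₀
    simp only [Function.comp] at h1
    refine h1.trans ?_
    have := hLpos n
    have : 0 < η * L n := by positivity
    linarith
  · obtain ⟨z, hz, hz'⟩ := H v hv
    refine ⟨S₁ (S^[n] (S' z)), hP₁.2.1 (hS'.2.1 hz), fun R' hR' => ?_⟩
    have h1 := hmain v z R' _ _ hz' (hR'.trans (min_le_left _ _)) hQ₁
      (by rw [mul_comm (c ^ n)]; exact hP₁)
    simp only [Function.comp] at h1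
    have h2 : S₁ (S^[n] (S' z)) - S^[n] (S₁ (S' z₀))
        = (S₁ (S^[n] (S' z)) - S₁ (S^[n] (S' z₀))) + t n := by
      rw [ht]; simp only [hy]; abel
    have h3 : ‖V.starProjection (R' (t n)) - L n • f‖ ≤ η / 2 * L n := by
      have h4 : V.starProjection (R' (t n)) - L n • f
          = V.starProjection ((cl R' - cl Rn) (t n)) := by
        rw [← hVb, ← hRnt, ← map_sub]
        rfl
      rw [h4]
      refine (norm_starProjection_le V _).trans (((cl R' - cl Rn).le_opNorm _).trans ?_)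
      calc ‖cl R' - cl Rn‖ * ‖t n‖ ≤ (η / 2 * L n / ‖t n‖) * ‖t n‖ := by
            gcongr
            exact hR'.trans (min_le_right _ _)
        _ = η / 2 * L n := by field_simp
    have h5 : V.starProjection (R' (S₁ (S^[n] (S' z)) - S^[n] (S₁ (S' z₀)))) - L n • (v + f)
        = (V.starProjection (R' (S₁ (S^[n] (S' z)) - S₁ (S^[n] (S' z₀)))) - L n • v)
          + (V.starProjection (R' (t n)) - L n • f) := by
      rw [h2, LinearIsometryEquiv.map_add, map_add, smul_add]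
      abel
    rw [h5]
    refine (norm_add_le _ _).trans ((add_le_add h1 h3).trans (le_of_eq ?_))
    ring

end Pool.Agent.V1197.AD
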